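import Pool.Agent.H91.QS.Defs
import Pool.Agent.H91.L.W5h93_QD_Conv
import Pool.Agent.H91.L.W5h93_EX_Main
import Pool.Agent.H91.L.W5h93_WC_Main
import Pool.Agent.H91.L.W5h68_CP_Defs
import Pool.Agent.H79.L.W5h68_PJ_Strata

/-!
# Schemes built from schemes of small dimension, and systems of quadratic equations
-/

set_option autoImplicit false

open CategoryTheory AlgebraicGeometry MvPolynomial Pool.Agent.Y116.UV Pool.Agent.Z125.UN
  Pool.Agent.W5h93.EV Pool.Agent.W5h93.EX Pool.Agent.W5h93.QD Pool.Agent.W5h68.PJ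
  Pool.Agent.W5h68.SP Pool.Agent.W5h93.WC

universe v u

namespace Pool.Agent.H91.QS

variable {k : Type} [Field k]

lemma compl_of {A : Type} [CommRing A] [Algebra k A] {m : ℕ} {f : Fin m → A} {U : Sch k}
    (j : U ⟶ aff k A) (hj : IsOpenImmersion j.left)
    (hr : Set.range j.left = {x : PrimeSpectrum A | ∃ l, f l ∉ x.asIdeal}) : Compl f U :=
  ⟨j, hj, hr⟩

lemma built_point (n : ℕ) : Built k n (aff k k) := by
  refine Built.dim k ?_
  rw [ringKrullDim_eq_zero_of_field]
  exact_mod_cast Nat.zero_le n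

lemma built_space (n m : ℕ) : Built k n (aff k (MvPolynomial (Fin m) k)) := by
  have h2 := Built.bundle (n := n) k (m + 1) (f1 k m) (aff k k) (compl_one k m) (built_point n)
  have : Algebra.FiniteType k (Jou (f1 k m)) :=
    Algebra.FiniteType.trans (S := k) inferInstance inferInstance
  exact Built.iso (X := aff k (Jou (f1 k m))) (Y := aff k (MvPolynomial (Fin m) k))
    (ft_aff True) ⟨(affIso ((jouOne k m).restrictScalars k)).symm⟩ h2

theorem bnd_built (n : ℕ) : Bnd True (Built k n) where
  iso hX e h := Built.iso hX e h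
  total i j hX h hZ hU := Built.total i j hX h hZ hU
  opened i j hX h hZ hX' := Built.opened i j hX h hZ hX'
  closed i j hX h hX' hU := Built.closed i j hX h hX' hU
  space m := built_space n m
  jouanolou A _ _ _ m f U j hj hr h := Built.base A m f U (compl_of j hj hr) h
  torus A _ _ _ h := Built.torus A h
  bundle A _ _ _ m f U j hj hr h := Built.bundle A m f U (compl_of j hj hr) h

/-- The property descends along the coverings `s ^ d = u`. -/
def Coverings (P : Sch k → Prop) : Prop :=
  ∀ (A : Type) [CommRing A] [Algebra k A] [Algebra.FiniteType k A] (d : ℕ) (u : A), 0 < d →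
    IsUnit u → P (aff k (Cyc A d u)) → P (aff k A)

/-- The class is the smallest one. -/
theorem of_built {P : Sch k → Prop} (hP : Bnd True P) (hC : Coverings P) {n : ℕ}
    (h : ∀ (A : Type) [CommRing A] [Algebra k A] [Algebra.FiniteType k A],
      ringKrullDim A ≤ n → P (aff k A)) {X : Sch k} (hX : Built k n X) : P X := by
  induction hX with
  | dim A hA => exact h A hA
  | iso hX e _ ih => exact hP.iso hX e ih
  | total i j hX ht _ _ ih1 ih2 => exact hP.total i j hX ht ih1 ih2
  | opened i j hX ht _ _ ih1 ih2 => exact hP.opened i j hX ht ih1 ih2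
  | closed i j hX ht _ _ ih1 ih2 => exact hP.closed i j hX ht ih1 ih2
  | bundle A m f U hU _ ih =>
    obtain ⟨j, hj, hr⟩ := hU
    exact hP.bundle A m f U j hj hr ih
  | base A m f U hU _ ih =>
    obtain ⟨j, hj, hr⟩ := hU
    exact hP.jouanolou A m f U j hj hr ih
  | torus A _ ih => exact hP.torus A ih
  | cover A d u hd hu _ ih => exact hC A d u hd hu ih

lemma doubleCovers_of {P : Sch k → Prop} (hP : Bnd True P) (hC : Coverings P) : DoubleCovers P := by
  intro A _ _ _ u hu h
  have : Algebra.FiniteType k (Sq A u) := inferInstance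
  let e : Sq A u ≃ₐ[k] Cyc A 2 u := AlgEquiv.refl
  exact hC A 2 u two_pos hu (iso_alg hP.toUni e h)

lemma coverings_built (n : ℕ) : Coverings (Built k n) := fun A _ _ _ d u hd hu h =>
  Built.cover A d u hd hu h

/-- Systems of quadratic equations over a base. -/
theorem affineQuadrics_built (h2 : (2 : k) ≠ 0) (n : ℕ) : AffineQuadrics k n (Built k n) := by
  intro A _ _ _ s r hA hn N m b q hb hq
  have ht : (2⁻¹ : k) + 2⁻¹ = 1 := by
    rw [← two_mul, mul_inv_cancel₀ h2]
  exact quadrics (bnd_built n) (doubleCovers_of (bnd_built n) (coverings_built n)) ht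
    (fun B _ _ _ hB => Built.dim B hB) hA hn b q hb hq

lemma cls_built (n : ℕ) : ClS k (Built k n) where
  iso hX e h := Built.iso hX e h
  total i j hX h hZ hU := Built.total i j hX h hZ hU
  opened i j hX h hZ hX' := Built.opened i j hX h hZ hX'
  closed i j hX h hX' hU := Built.closed i j hX h hX' hU
  empty := by
    refine Built.dim PUnit ?_
    rw [ringKrullDim_eq_bot_of_subsingleton]
    exact bot_le

/-- Intersections of quadrics in projective spaces. -/
theorem projectiveQuadrics_built (h2 : (2 : k) ≠ 0) (n : ℕ) : ProjectiveQuadrics k n (Built k n) := by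
  intro N m b q hb hq Y i hY hi
  have ht : (2⁻¹ : k) + 2⁻¹ = 1 := by
    rw [← two_mul, mul_inv_cancel₀ h2]
  have hS : ∀ g ∈ Set.range b ∪ Set.range q, ∃ m, 0 < m ∧ g.IsHomogeneous m := by
    rintro g (⟨j, rfl⟩ | ⟨l, rfl⟩)
    · exact ⟨1, one_pos, hb j⟩
    · exact ⟨2, two_pos, hq l⟩
  refine strata_list (cls_built n) hS (fun T i₀ _ => ?_) Finset.univ.toList ∅
    (fun j => Or.inr (by simp)) i hY ?_
  · -- the charts
    let b' : (PUnit.{1} ⊕ Fin m) ⊕ T → MvPolynomial (Fin N) k :=
      Sum.elim (Sum.elim (fun _ => X i₀ - 1) b) fun t => X (t : Fin N)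
    have hb' : ∀ j, (b' j).totalDegree ≤ 1 := by
      rintro ((_ | j) | t)
      · refine (totalDegree_sub _ _).trans ?_
        rw [totalDegree_X, totalDegree_one]
        simp
      · exact (hb j).totalDegree_le
      · exact (totalDegree_X (R := k) _).le
    have h1 := quadrics (bnd_built n) (doubleCovers_of (bnd_built n) (coverings_built n)) ht
      (fun B _ _ _ hB => Built.dim B hB) (A := k) (s := 0) (r := n)
      (by rw [ringKrullDim_eq_zero_of_field]; exact le_rfl) (by omega) b' q hb'
      (fun l => (hq l).totalDegree_le)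
    have h3 : Ideal.span (Set.range b' ∪ Set.range q) =
        Ideal.span {(X i₀ - 1 : MvPolynomial (Fin N) k)} ⊔
          Ideal.span ((Set.range b ∪ Set.range q) ∪ X '' T) := by
      rw [← Ideal.span_union]
      congr 1
      ext g
      constructor
      · rintro (⟨((u | j) | t), rfl⟩ | ⟨l, rfl⟩)
        · exact Or.inl rfl
        · exact Or.inr (Or.inl (Or.inl ⟨j, rfl⟩))
        · exact Or.inr (Or.inr ⟨t, t.2, rfl⟩)
        · exact Or.inr (Or.inl (Or.inr ⟨l, rfl⟩))
      · rintro (h | ((⟨j, rfl⟩ | ⟨l, rfl⟩) | ⟨t, ht, rfl⟩))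
        · exact Or.inl ⟨Sum.inl (Sum.inl PUnit.unit), h.symm⟩
        · exact Or.inl ⟨Sum.inl (Sum.inr j), rfl⟩
        · exact Or.inr ⟨l, rfl⟩
        · exact Or.inl ⟨Sum.inr ⟨t, ht⟩, rfl⟩
    have h4 : Ideal.span ((Ideal.Quotient.mk (Ideal.span {(X i₀ - 1 : MvPolynomial (Fin N) k)})) ''
        ((Set.range b ∪ Set.range q) ∪ X '' T)) =
        Ideal.map (Ideal.Quotient.mkₐ k (Ideal.span {(X i₀ - 1 : MvPolynomial (Fin N) k)}))
          (Ideal.span ((Set.range b ∪ Set.range q) ∪ X '' T)) := by
      rw [Ideal.map_span]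
      rfl
    rw [h4]
    refine iso_alg (bnd_built n).toUni (DoubleQuot.quotQuotEquivQuotSupₐ k
      (Ideal.span {(X i₀ - 1 : MvPolynomial (Fin N) k)})
      (Ideal.span ((Set.range b ∪ Set.range q) ∪ X '' T))).symm ?_
    rw [← h3]
    exact h1
  · rw [Set.image_empty, Set.union_empty]
    exact hi

/-- **The reduction to quadratic equations.** -/
theorem quadReduces [PerfectField k] {Q C P : Sch k → Prop} (hP : Bnd True P) (hC : Coverings P)
    (hQ : IsClass Q) (h : ∀ X, Q X → (C X ↔ P X)) : QuadReduces Q C P := by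
  have h1 : ∀ n, ForClass Q C n ↔ ForClass Q P n := fun n =>
    forall_congr' fun X => forall_congr' fun hX => forall_congr' fun _ => h X hX
  have key : ∀ n, ModelsIn Q n → ForClass Q C n → ∀ X : Sch k, Built k n X → P X := by
    intro n hM hn X hX
    refine of_built hP hC (fun A _ _ _ hA => ?_) hX
    exact devissage hP hQ hM ((h1 n).mp hn) (aff k A) (ft_aff True) (by rw [topDim_aff]; exact hA)
  refine ⟨fun n hM => ⟨key n hM, fun h3 => (h1 n).mpr fun X hX hn => ?_⟩,
    fun n hM hn X hQX hX => (h X hQX).mpr (key n hM hn X hX), fun n h3 => (h1 n).mpr fun X hX hn => ?_⟩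
  · refine of_affine_dim hP ?_ X (hQ.ft hX) hn
    exact fun A _ _ _ hA => h3 _ (Built.dim A hA)
  · exact dim_of_quad hP h3 X (hQ.ft hX) hn

section wc

open Limits MonoidalCategory Pool.Agent.W5h68.CP

variable {𝒜 : Type u} [Category.{v} 𝒜] [Preadditive 𝒜] [HasZeroObject 𝒜]
  [HasBinaryBiproducts 𝒜] [MonoidalCategory 𝒜] [MonoidalPreadditive 𝒜] {T : ℤ → 𝒜}
  {W : Sch k → HomotopyCategory 𝒜 (ComplexShape.up ℤ)}

omit [MonoidalCategory 𝒜] [MonoidalPreadditive 𝒜] in
lemma coverings_null {V : Cls 𝒜} (hc : HasCoverings W) :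
    Coverings fun X : Sch k => Null V.prop (W X).as := by
  intro A _ _ _ d u hd hu h1
  obtain ⟨s, r, hs⟩ := hc A d u hd hu
  exact Null.of_retract s r hs h1

/-- **The reduction to quadratic equations, for any class of motives closed under sums, retracts and Tate
twists.** -/
theorem quadReduces_wc [PerfectField k] {V : Cls 𝒜}
    (hT : ∀ (j : ℤ) (A : 𝒜), V.prop A → V.prop (A ⊗ T j)) (h0 : V.prop (T 0))
    (hW : IsWeightComplex T W) (hc : HasCoverings W) {Q : Sch k → Prop} (hQ : IsClass Q)
    (h : Sch k → 𝒜) (hh : ∀ X, Q X → Nonempty (W X ≅ cpx (h X))) :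
    QuadReduces Q (fun X => V.prop (h X)) (fun X => Null V.prop (W X).as) :=
  quadReduces (bnd_wc hT h0 hW) (coverings_null hc) hQ fun X hX => by
    obtain ⟨e⟩ := hh X hX
    rw [← null_cpx]
    exact ⟨fun h1 => h1.of_iso e.symm, fun h1 => h1.of_iso e⟩

end wc

end Pool.Agent.H91.QS
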