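import Pool.Agent.H91.QS.Main
import Pool.Agent.H91.L.W5h93_WC_MurreMain
import Pool.Agent.H91.L.W5h68_CP_Defs

/-!
# Murre's conjectures and systems of quadratic equations
-/

set_option autoImplicit false
set_option linter.unusedSectionVars false

open CategoryTheory Limits Pretriangulated MonoidalCategory AlgebraicGeometry Pool.Agent.Y116.UV
  Pool.Agent.Z125.UN Pool.Agent.W5h93.EV Pool.Agent.W5h93.EX Pool.Agent.W5h93.WC
  Pool.Agent.W5h68.CP

universe v u v' u'

namespace Pool.Agent.H91.QS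

section gen

variable {k : Type} [Field k] {𝒜 : Type u} [Category.{v} 𝒜] [Preadditive 𝒜] [HasZeroObject 𝒜]
  [HasBinaryBiproducts 𝒜] [MonoidalCategory 𝒜] [MonoidalPreadditive 𝒜] {T : ℤ → 𝒜}
  {W : Sch k → HomotopyCategory 𝒜 (ComplexShape.up ℤ)}

/-- the class of the motives of dimension at most `n` -/
def dimCls {h : Sch k → 𝒜} {Q : Sch k → Prop} {n : ℕ} (hne : ∃ A : 𝒜, DimGen T h Q n A) :
    Cls 𝒜 where
  prop := DimGen T h Q n
  nonempty := hne
  sum _ _ := Gen.sum
  retract _ _ s r hs hB := Gen.ret _ _ s r hs hB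

lemma dim_point (n : ℕ) : topologicalKrullDim (aff k k).left ≤ n := by
  have h2 : topologicalKrullDim (aff k k).left = ringKrullDim k :=
    (PrimeSpectrum.topologicalKrullDim_eq_ringKrullDim k)
  rw [h2, ringKrullDim_eq_zero_of_field]
  exact_mod_cast Nat.zero_le n

variable {Q : Sch k → Prop} {h : Sch k → 𝒜}

lemma dimGen_point (hpt : Q (aff k k)) (n : ℕ) : DimGen T h Q n (h (aff k k)) :=
  Gen.of (Q := fun X => Q X ∧ topologicalKrullDim X.left ≤ n) ⟨hpt, dim_point n⟩

/-- **The motives of the schemes built from schemes of dimension at most `n` are motives of dimension at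
most `n`.** -/
theorem dimGen_of_built [PerfectField k] (hW : IsWeightComplex T W) (hc : HasCoverings W)
    (hQ : IsClass Q) (hpt : Q (aff k k)) (hh : ∀ X, Q X → Nonempty (W X ≅ cpx (h X))) {n : ℕ}
    (hM : ModelsIn Q n) {X : Sch k} (hX : Q X) (hb : Built k n X) : DimGen T h Q n (h X) := by
  let V : Cls 𝒜 := dimCls (T := T) (h := h) (Q := Q) (n := n) ⟨_, dimGen_point hpt n⟩
  have h0 : V.prop (T 0) := by
    obtain ⟨e⟩ := hh _ hpt
    obtain ⟨e'⟩ := hW.point
    exact (null_cpx (V := V)).mp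
      (((null_cpx (V := V)).mpr (dimGen_point (T := T) (h := h) hpt n)).of_iso (e.symm ≪≫ e'))
  have hB := bnd_wc (V := V) (fun l A hA => Gen.twist hA l) h0 hW
  have h1 : QuadReduces Q (fun X => V.prop (h X)) (fun X => Null V.prop (W X).as) :=
    quadReduces hB (coverings_null hc) hQ fun X hX => by
      obtain ⟨e⟩ := hh X hX
      rw [← null_cpx]
      exact ⟨fun h1 => h1.of_iso e.symm, fun h1 => h1.of_iso e⟩
  exact h1.of_dim n hM (fun Y hY hYn => Gen.of (Q := fun X => Q X ∧
    topologicalKrullDim X.left ≤ n) ⟨hY, hYn⟩) X hX hb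

end gen

section murre

variable {k : Type} [Field k] {𝒜 : Type u} [Category.{v} 𝒜] [Preadditive 𝒜] [HasZeroObject 𝒜]
  [HasBinaryBiproducts 𝒜] [IsIdempotentComplete 𝒜] [MonoidalCategory 𝒜] [MonoidalPreadditive 𝒜]
  {𝒢 : Type u'} [Category.{v'} 𝒢] [Preadditive 𝒢] {T : ℤ → 𝒜} {H : ℤ → 𝒜 ⥤ 𝒢}
  {W : Sch k → HomotopyCategory 𝒜 (ComplexShape.up ℤ)}

variable (hT : IsTate T) (hH : IsHomology T H) (hW : IsWeightComplex T W) {Q : Sch k → Prop}
  (hQ : IsClass Q) {h : Sch k → 𝒜} (hh : ∀ X, Q X → Nonempty (W X ≅ cpx (h X)))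

/-- the point is given by quadratic equations -/
lemma point_iso (m : ℕ) : Nonempty (aff k (Zeros k (Fin 0)
    (Set.range (fun _ : Fin m => (0 : MvPolynomial (Fin 0) k)))) ≅ aff k k) := by
  have h1 : Ideal.span (Set.range (fun _ : Fin m => (0 : MvPolynomial (Fin 0) k))) = ⊥ := by
    rw [Ideal.span_eq_bot]
    rintro _ ⟨_, rfl⟩
    rfl
  exact ⟨affIso (((Ideal.quotientEquivAlgOfEq k h1).trans (AlgEquiv.quotientBot k _)).trans
    (MvPolynomial.isEmptyAlgEquiv k (Fin 0))).symm⟩

include hT hH hW hQ hh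

/-- **The strong form of Murre's conjectures for motives of dimension at most `n`, from systems of
quadratic equations.** -/
theorem murre_systems [PerfectField k] [RightRigidCategory 𝒜] (n : ℕ)
    (h1 : QuadraticSystems k (n + 2) fun X => Null (Strong H (DimGen T h Q n)) (W X).as) :
      ∀ M, DimGen T h Q n M → Strong H (DimGen T h Q n) M := by
  have hadd := hH.additive
  intro M hM
  by_cases hQn : ∃ X, Q X ∧ topologicalKrullDim X.left ≤ n
  swap
  · exact hM _ (fun A B hA hB => Strong.sum (Gen.sum) hA hB)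
      (fun A l hA => Strong.twist (fun _ l hA => hA.twist l) hT hH hA l)
      (fun A B s r hs hB => Strong.retract Gen.ret s r hs hB) fun X hX => (hQn ⟨X, hX⟩).elim
  obtain ⟨X₀, hX₀⟩ := hQn
  have hne : ∃ A : 𝒜, DimGen T h Q n A := ⟨h X₀, Gen.of (Q := fun X => Q X ∧
    topologicalKrullDim X.left ≤ n) hX₀⟩
  have h0 : (strongCls (H := H) hne (fun _ _ => Gen.sum) Gen.ret).prop (T 0) := by
    obtain ⟨e⟩ := hW.point
    refine (null_cpx (V := strongCls hne (fun _ _ => Gen.sum) Gen.ret)).mp ?_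
    obtain ⟨e'⟩ := hW.iso (ft_aff True) (point_iso (k := k) (n + 2))
    exact ((h1 0 (fun _ => 0) (fun _ => by rw [MvPolynomial.totalDegree_zero]; omega)).of_iso
      (V := strongCls hne (fun _ _ => Gen.sum) Gen.ret) e').of_iso
      (V := strongCls hne (fun _ _ => Gen.sum) Gen.ret) e
  have h3 : Bnd True fun X : Sch k => Null (Strong H (DimGen T h Q n)) (W X).as :=
    bnd_wc (V := strongCls hne (fun _ _ => Gen.sum) Gen.ret)
      (fun l A hA => Strong.twist (fun _ l hA => hA.twist l) hT hH hA l) h0 hW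
  refine hM _ (fun A B hA hB => Strong.sum (Gen.sum) hA hB)
      (fun A l hA => Strong.twist (fun _ l hA => hA.twist l) hT hH hA l)
      (fun A B s r hs hB => Strong.retract Gen.ret s r hs hB) fun X hX => ?_
  have h4 := Pool.Agent.W5h93.QD.dim_of_quad h3 h1 X (hQ.ft hX.1) hX.2
  obtain ⟨e⟩ := hh X hX.1
  exact (null_cpx (V := strongCls hne (fun _ _ => Gen.sum) Gen.ret)).mp
    (h4.of_iso (V := strongCls hne (fun _ _ => Gen.sum) Gen.ret) e)

/-- **The strong form of Murre's conjectures for motives of dimension at most `n`, and the schemes built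
from schemes of dimension at most `n`.** -/
theorem murre_built_iff [PerfectField k] [RightRigidCategory 𝒜] (hc : HasCoverings W)
    (hpt : Q (aff k k)) (n : ℕ) (hM : ModelsIn Q n) :
    (∀ M, DimGen T h Q n M → Strong H (DimGen T h Q n) M) ↔
      ∀ X : Sch k, Built k n X → Null (Strong H (DimGen T h Q n)) (W X).as := by
  have hadd := hH.additive
  have hne : ∃ A : 𝒜, DimGen T h Q n A := ⟨_, dimGen_point hpt n⟩
  let V : Cls 𝒜 := strongCls (H := H) hne (fun _ _ => Gen.sum) Gen.ret
  constructor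
  · intro h1
    have h3 := bnd_of_strong hT hH hW hQ hh hne (fun _ _ => Gen.sum) Gen.ret
      (fun _ l hA => hA.twist l) hpt (h1 _ (dimGen_point hpt n))
    have h4 : QuadReduces Q (fun X => V.prop (h X)) (fun X => Null V.prop (W X).as) :=
      quadReduces h3 (coverings_null hc) hQ fun X hX => by
        obtain ⟨e⟩ := hh X hX
        rw [← null_cpx]
        exact ⟨fun h1 => h1.of_iso e.symm, fun h1 => h1.of_iso e⟩
    exact (h4.dim_iff n hM).mp fun Y hY hYn => h1 _ (Gen.of (Q := fun X => Q X ∧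
      topologicalKrullDim X.left ≤ n) ⟨hY, hYn⟩)
  · intro h1 M hM
    have h0 : V.prop (T 0) := by
      obtain ⟨e⟩ := hW.point
      exact (null_cpx (V := V)).mp ((h1 _ (built_point n)).of_iso (V := V) e)
    have h3 : Bnd True fun X : Sch k => Null V.prop (W X).as :=
      bnd_wc (V := V) (fun l A hA => Strong.twist (fun _ l hA => hA.twist l) hT hH hA l) h0 hW
    refine hM _ (fun A B hA hB => Strong.sum (Gen.sum) hA hB)
      (fun A l hA => Strong.twist (fun _ l hA => hA.twist l) hT hH hA l)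
      (fun A B s r hs hB => Strong.retract Gen.ret s r hs hB) fun X hX => ?_
    have h4 : QuadReduces Q (fun X => V.prop (h X)) (fun X => Null V.prop (W X).as) :=
      quadReduces h3 (coverings_null hc) hQ fun X hX => by
        obtain ⟨e⟩ := hh X hX
        rw [← null_cpx]
        exact ⟨fun h1 => h1.of_iso e.symm, fun h1 => h1.of_iso e⟩
    exact (h4.dim_iff n ‹_›).mpr h1 X hX.1 hX.2

end murre

end Pool.Agent.H91.QS
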