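import Pool.Agent.H91.QS.OrdDefs
import Pool.Agent.H91.QS.Murre
import Pool.Agent.H91.L.W5h93_EX_OrdMain

/-!
# Ordinary places for motives
-/

set_option autoImplicit false
set_option linter.unusedSectionVars false

open CategoryTheory Limits MonoidalCategory AlgebraicGeometry Filter Pool.Agent.Y116.UV Pool.Agent.Z125.UN
  Pool.Agent.W5h93.EV Pool.Agent.W5h93.EX Pool.Agent.W5h93.WC Pool.Agent.W5h68.CP

universe v u

namespace Pool.Agent.H91.QS

lemma squares_add (s t : Multiset ℚ) : squares (s + t) = squares s + squares t := by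
  rw [squares, squares, squares, Multiset.map_add, Multiset.sum_add]

/-- A summand of an ordinary representation is ordinary. -/
lemma eq_of_above {s w s' w' : Multiset ℚ} (h : IsAbove s w) (h' : IsAbove s' w')
    (he : s + s' = w + w') : s = w := by
  have h1 := h.squares_le
  have h2 := h'.squares_le
  have h3 := congrArg squares he
  rw [squares_add, squares_add] at h3
  exact h1.2 (by linarith [h1.1, h2.1])

/-- A retract has a complement. -/
lemma exists_compl {𝒜 : Type u} [Category.{v} 𝒜] [Preadditive 𝒜] [HasBinaryBiproducts 𝒜]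
    [IsIdempotentComplete 𝒜] {A B : 𝒜} (s : A ⟶ B) (r : B ⟶ A) (hs : s ≫ r = 𝟙 A) :
    ∃ A' : 𝒜, Nonempty (B ≅ A ⊞ A') := by
  obtain ⟨A', i, p, hip, hpi⟩ := IsIdempotentComplete.idempotents_split B (𝟙 B - r ≫ s) (by
    have h1 : (r ≫ s) ≫ (r ≫ s) = r ≫ s := by
      rw [Category.assoc, ← Category.assoc s, hs, Category.id_comp]
    rw [Preadditive.sub_comp, Preadditive.comp_sub, Preadditive.comp_sub, Category.comp_id,
      Category.id_comp, Category.comp_id, h1, sub_self, sub_zero])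
  have hsp : s ≫ p = 0 := by
    have h1 : s ≫ p ≫ i = 0 := by
      rw [hpi, Preadditive.comp_sub, Category.comp_id, ← Category.assoc, hs, Category.id_comp,
        sub_self]
    calc s ≫ p = (s ≫ p ≫ i) ≫ p := by
          rw [Category.assoc, Category.assoc, hip, Category.comp_id]
      _ = 0 := by rw [h1, zero_comp]
  have hir : i ≫ r = 0 := by
    have h1 : (p ≫ i) ≫ r = 0 := by
      rw [hpi, Preadditive.sub_comp, Category.id_comp, Category.assoc, hs, Category.comp_id,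
        sub_self]
    calc i ≫ r = i ≫ (p ≫ i) ≫ r := by
          rw [← Category.assoc, ← Category.assoc, hip, Category.id_comp]
      _ = 0 := by rw [h1, comp_zero]
  refine ⟨A', ⟨⟨biprod.lift r p, biprod.desc s i, ?_, ?_⟩⟩⟩
  · rw [biprod.lift_desc, hpi]
    simp
  · ext <;> simp [hs, hip, hsp, hir]

variable {𝒜 : Type u} [Category.{v} 𝒜] [Preadditive 𝒜] [HasBinaryBiproducts 𝒜]
  [MonoidalCategory 𝒜] {ι : Type} {D : MotSlopes 𝒜 ι} {T : ℤ → 𝒜}

lemma OrdAlong.sum (hD : D.IsRealization T) {𝓕 : Filter ι} (hF : 𝓕 ≤ cofinite) {A B : 𝒜}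
    (hA : D.OrdAlong 𝓕 A) (hB : D.OrdAlong 𝓕 B) : D.OrdAlong 𝓕 (A ⊞ B) := by
  intro j
  obtain ⟨h1, h2⟩ := hD.sum A B j
  filter_upwards [h2.filter_mono hF, hA j, hB j] with v h2 h3 h4
  rw [MotSlopes.Ord] at *
  rw [h1, h2, h3, h4]

lemma OrdAlong.twist (hD : D.IsRealization T) {𝓕 : Filter ι} (hF : 𝓕 ≤ cofinite) {A : 𝒜}
    (l : ℤ) (hA : D.OrdAlong 𝓕 A) : D.OrdAlong 𝓕 (A ⊗ T l) := by
  intro j
  obtain ⟨h1, h2⟩ := hD.twist A l j
  filter_upwards [h2.filter_mono hF, hA (j - 2 * l)] with v h2 h3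
  rw [MotSlopes.Ord] at *
  rw [h1, h2, h3]

lemma OrdAlong.retract [IsIdempotentComplete 𝒜] (hD : D.IsRealization T) {𝓕 : Filter ι}
    (hF : 𝓕 ≤ cofinite) {A B : 𝒜} (s : A ⟶ B) (r : B ⟶ A) (hs : s ≫ r = 𝟙 A)
    (hB : D.OrdAlong 𝓕 B) : D.OrdAlong 𝓕 A := by
  obtain ⟨A', he⟩ := exists_compl s r hs
  intro j
  obtain ⟨h1, h2⟩ := hD.iso _ _ he j
  obtain ⟨h3, h4⟩ := hD.sum A A' j
  filter_upwards [h2.filter_mono hF, h4.filter_mono hF, hB j, (hD.above A j).filter_mono hF,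
    (hD.above A' j).filter_mono hF] with v h2 h4 h5 h6 h7
  rw [MotSlopes.Ord] at *
  refine eq_of_above h6 h7 ?_
  rw [← h3, ← h4, ← h1, ← h2, h5]

/-- the class of the motives which are ordinary along a filter -/
def ordCls [IsIdempotentComplete 𝒜] (hD : D.IsRealization T) {𝓕 : Filter ι}
    (hF : 𝓕 ≤ cofinite) : Cls 𝒜 where
  prop := D.OrdAlong 𝓕
  nonempty := ⟨T 0, fun j => (hD.unit j).filter_mono hF⟩
  sum _ _ := OrdAlong.sum hD hF
  retract _ _ s r hs h := OrdAlong.retract hD hF s r hs h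

/-- Summands are ordinary. -/
lemma summand_eq {M : 𝒜} {j : ℤ} {s : ι → Multiset ℚ} {w : Multiset ℚ}
    (h : D.IsSummand M j s w) : ∀ᶠ v in cofinite, D.Ord M j v → s v = w := by
  obtain ⟨s', w', h1, h2⟩ := h
  filter_upwards [h2] with v ⟨h2, h3, h4⟩ h5
  rw [MotSlopes.Ord] at h5
  exact eq_of_above h3 h4 (by rw [h1, h2, h5])

/-- The filter generated by the sets of ordinary places. -/
def ordFilter (D : MotSlopes 𝒜 ι) (S : Set (𝒜 × ℤ)) : Filter ι :=
  cofinite ⊓ ⨅ x : S, 𝓟 {v | D.Ord x.1.1 x.1.2 v}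

lemma mem_ordFilter {S : Set (𝒜 × ℤ)} {E : Set ι} (h : E ∈ ordFilter D S) :
    ∃ L : List (𝒜 × ℤ), (∀ x ∈ L, x ∈ S) ∧
      ∀ᶠ v in cofinite, (∀ x ∈ L, D.Ord x.1 x.2 v) → v ∈ E := by
  classical
  rw [ordFilter, (cofinite.basis_sets.inf (hasBasis_iInf_principal_finite _)).mem_iff] at h
  obtain ⟨⟨s, t⟩, ⟨hs, ht⟩, hE⟩ := h
  refine ⟨ht.toFinset.toList.map Subtype.val, ?_, ?_⟩
  · intro x hx
    obtain ⟨y, -, rfl⟩ := List.mem_map.mp hx
    exact y.2
  · filter_upwards [hs] with v hv h1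
    refine hE ⟨hv, ?_⟩
    rw [Set.mem_iInter₂]
    intro i hi
    exact h1 i.1 (List.mem_map.mpr ⟨i, by simpa using hi, rfl⟩)

/-- Common ordinary places and ultrafilters. -/
lemma hasCommon_iff {S : 𝒜 → Prop} : D.HasCommon S ↔
    ∃ 𝒰 : Ultrafilter ι, (𝒰 : Filter ι) ≤ cofinite ∧ ∀ M, S M → D.OrdAlong 𝒰 M := by
  constructor
  · intro h
    obtain ⟨𝒰, hU, h1⟩ := exists_ultra (S := {x : 𝒜 × ℤ | S x.1})
      (E := fun x => {v | D.Ord x.1 x.2 v}) h
    exact ⟨𝒰, hU, fun M hM j => h1 (M, j) hM⟩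
  · rintro ⟨𝒰, hU, h⟩ L hL
    exact infinite_of_ultra (S := {x : 𝒜 × ℤ | S x.1}) (E := fun x => {v | D.Ord x.1 x.2 v}) hU
      (fun x hx => h x.1 hx x.2) L hL

variable {k : Type} [Field k] [PerfectField k] [HasZeroObject 𝒜] [MonoidalPreadditive 𝒜]
  [IsIdempotentComplete 𝒜] {W : Sch k → HomotopyCategory 𝒜 (ComplexShape.up ℤ)}
  {Q : Sch k → Prop} {h : Sch k → 𝒜}

section

omit [PerfectField k] [HasZeroObject 𝒜] [MonoidalPreadditive 𝒜]

/-- The motives generated by a class of varieties, along a filter. -/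
lemma ordAlong_gen (hD : D.IsRealization T) {𝓕 : Filter ι} (hF : 𝓕 ≤ cofinite)
    {R : Sch k → Prop} (hR : ∀ X, R X → D.OrdAlong 𝓕 (h X)) {M : 𝒜} (hM : Gen T h R M) :
    D.OrdAlong 𝓕 M :=
  hM _ (fun _ _ => OrdAlong.sum hD hF) (fun _ l => OrdAlong.twist hD hF l)
    (fun _ _ s r hs h => OrdAlong.retract hD hF s r hs h) hR

end

/-- **The reduction for a filter of sets of places.** -/
theorem ord_filter (hD : D.IsRealization T) (hW : IsWeightComplex T W) (hc : HasCoverings W)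
    (hQ : IsClass Q) (hh : ∀ X, Q X → Nonempty (W X ≅ cpx (h X))) {𝓕 : Filter ι}
    (hF : 𝓕 ≤ cofinite) :
    QuadReduces Q (fun X => D.OrdAlong 𝓕 (h X)) (fun X => Null (D.OrdAlong 𝓕) (W X).as) :=
  quadReduces_wc (V := ordCls hD hF) (fun l _ hA => OrdAlong.twist hD hF l hA)
    (fun j => (hD.unit j).filter_mono hF) hW hc hQ h hh

/-- **Finitely many varieties of dimension at most `n` are sufficient.** -/
theorem ord_finite (hD : D.IsRealization T) (hW : IsWeightComplex T W) (hc : HasCoverings W)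
    (hQ : IsClass Q) (hh : ∀ X, Q X → Nonempty (W X ≅ cpx (h X))) {n : ℕ} (hM : ModelsIn Q n)
    {M : 𝒜} (hG : Gen T h (fun X => Q X ∧ Built k n X) M) {j : ℤ} {s : ι → Multiset ℚ}
    {w : Multiset ℚ} (hs : D.IsSummand M j s w) :
    ∃ L : List (Sch k × ℤ), (∀ x ∈ L, Q x.1 ∧ topologicalKrullDim x.1.left ≤ n) ∧
      ∀ᶠ v in cofinite, (∀ x ∈ L, D.Ord (h x.1) x.2 v) → s v = w := by
  let S : Set (𝒜 × ℤ) := {y | ∃ X, Q X ∧ topologicalKrullDim X.left ≤ n ∧ y.1 = h X}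
  have hF : ordFilter D S ≤ cofinite := inf_le_left
  have h1 : ∀ X, Q X → topologicalKrullDim X.left ≤ n → D.OrdAlong (ordFilter D S) (h X) := by
    intro X hX hXn i
    exact (inf_le_right : ordFilter D S ≤ _) (mem_iInf_of_mem
      (⟨(h X, i), X, hX, hXn, rfl⟩ : S) (mem_principal_self _))
  have h2 : D.OrdAlong (ordFilter D S) M :=
    ordAlong_gen hD hF (fun X hX => (ord_filter hD hW hc hQ hh hF).of_dim n hM h1 X hX.1 hX.2) hG
  obtain ⟨L, hL, h3⟩ := mem_ordFilter (h2 j)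
  choose f hf using fun x : {x // x ∈ L} => hL x.1 x.2
  refine ⟨L.attach.map fun x => (f x, x.1.2), ?_, ?_⟩
  · intro y hy
    obtain ⟨x, -, rfl⟩ := List.mem_map.mp hy
    exact ⟨(hf x).1, (hf x).2.1⟩
  · filter_upwards [h3, summand_eq hs] with v h3 h4 h5
    refine h4 (h3 fun x hx => ?_)
    have h6 := h5 (f ⟨x, hx⟩, x.2) (List.mem_map.mpr ⟨⟨x, hx⟩, List.mem_attach _ _, rfl⟩)
    have h7 := (hf ⟨x, hx⟩).2.2
    dsimp only at h6 h7
    rw [h7]
    exact h6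

/-- **Common ordinary places.** -/
theorem ord_common_iff (hD : D.IsRealization T) (hW : IsWeightComplex T W) (hc : HasCoverings W)
    (hQ : IsClass Q) (hh : ∀ X, Q X → Nonempty (W X ≅ cpx (h X))) {n : ℕ} (hM : ModelsIn Q n) :
    D.HasCommon (Gen T h fun X => Q X ∧ topologicalKrullDim X.left ≤ n) ↔
      D.HasCommon (Gen T h fun X => Q X ∧ Built k n X) := by
  constructor
  · intro h1
    rw [hasCommon_iff] at h1 ⊢
    obtain ⟨𝒰, hU, h1⟩ := h1
    refine ⟨𝒰, hU, fun M hG => ordAlong_gen hD hU (fun X hX => ?_) hG⟩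
    exact (ord_filter hD hW hc hQ hh hU).of_dim n hM
      (fun X hX hXn => h1 _ (Gen.of (Q := fun X => Q X ∧ topologicalKrullDim X.left ≤ n)
        ⟨hX, hXn⟩)) X hX.1 hX.2
  · intro h1 L hL
    refine h1 L fun x hx V hs ht hr hv => hL x hx V hs ht hr fun X hX => hv X ⟨hX.1, ?_⟩
    exact of_affine_dim (bnd_built n) (fun A _ _ _ hA => Built.dim A hA) X (hQ.ft hX.1) hX.2

/-- **Systems of quadratic equations.** -/
theorem ord_of_systems (hD : D.IsRealization T) (hW : IsWeightComplex T W) (hc : HasCoverings W)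
    (hQ : IsClass Q) (hh : ∀ X, Q X → Nonempty (W X ≅ cpx (h X))) {n : ℕ}
    (h1 : ∃ S : 𝒜 → Prop, D.HasCommon S ∧ QuadraticSystems k (n + 2) fun X => Null S (W X).as) :
    D.HasCommon (Gen T h fun X => Q X ∧ topologicalKrullDim X.left ≤ n) := by
  obtain ⟨S, hS, h2⟩ := h1
  rw [hasCommon_iff] at hS ⊢
  obtain ⟨𝒰, hU, h3⟩ := hS
  refine ⟨𝒰, hU, fun M hG => ordAlong_gen hD hU (fun X hX => ?_) hG⟩
  refine (ord_filter hD hW hc hQ hh hU).of_systems n (fun N q hq => ?_) X hX.1 hX.2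
  obtain ⟨σ, hσ⟩ := h2 N q hq
  refine ⟨σ, fun i => ?_⟩
  obtain ⟨C, a, b, hC, hab⟩ := hσ i
  exact ⟨C, a, b, h3 C hC, hab⟩

/-- **The converse.** -/
theorem ord_systems (hD : D.IsRealization T) (hW : IsWeightComplex T W) (hc : HasCoverings W)
    (hQ : IsClass Q) (hh : ∀ X, Q X → Nonempty (W X ≅ cpx (h X))) {n : ℕ} (hM : ModelsIn Q n)
    (h1 : D.HasCommon (Gen T h fun X => Q X ∧ topologicalKrullDim X.left ≤ n)) :
    ∃ S : 𝒜 → Prop, D.HasCommon S ∧ ∀ X, Built k n X → Null S (W X).as := by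
  rw [hasCommon_iff] at h1
  obtain ⟨𝒰, hU, h1⟩ := h1
  refine ⟨D.OrdAlong 𝒰, hasCommon_iff.mpr ⟨𝒰, hU, fun M hM => hM⟩, ?_⟩
  exact ((ord_filter hD hW hc hQ hh hU).dim_iff n hM).mp fun X hX hXn => h1 _
    (Gen.of (Q := fun X => Q X ∧ topologicalKrullDim X.left ≤ n) ⟨hX, hXn⟩)

end Pool.Agent.H91.QS
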