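import Pool.Agent.H91.L.W5h93_WC_Defs

/-!
# The two coniveau filtrations of the cohomology of motives: definitions
-/

set_option autoImplicit false

open CategoryTheory Limits MonoidalCategory

universe v u v' u'

namespace Pool.Agent.H91.QS

variable {𝒜 : Type u} [Category.{v} 𝒜] [Preadditive 𝒜] {𝒢 : Type u'} [Category.{v'} 𝒢]
  [Preadditive 𝒢]

/-- The generalized Tate conjecture in one level `r` for the motive `M`: the inclusions
`ρ ν : F ν M = N^ν H^{r + 2 ν}(M) ⟶ G ν M = N^ν_ℓ H^{r + 2 ν}(M)` of the geometric coniveau in the Galois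
coniveau are isomorphisms for all `ν`. -/
def LevelTate {F G : ℤ → 𝒜 ⥤ 𝒢} (ρ : ∀ ν, F ν ⟶ G ν) (M : 𝒜) : Prop := ∀ ν, IsIso ((ρ ν).app M)

/-- The standard properties of the two coniveau filtrations `F ν M = N^ν H^{r + 2 ν}(M)` and
`G ν M = N^ν_ℓ H^{r + 2 ν}(M)` of the cohomology of Chow motives in one level `r` (for `ν < 0` both are the
whole space): they are additive functors (correspondences respect the coniveau), they agree for the unit
object, and the Tate twist shifts the coniveau: `N^ν H^{r + 2 ν}(M ⊗ T l)` is the vector space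
`N^{ν + l} H^{r + 2 (ν + l)}(M)` for both filtrations. -/
structure IsConiveau [MonoidalCategory 𝒜] (T : ℤ → 𝒜) {F G : ℤ → 𝒜 ⥤ 𝒢} (ρ : ∀ ν, F ν ⟶ G ν) :
    Prop where
  additive : ∀ ν, (F ν).Additive ∧ (G ν).Additive
  unit : LevelTate ρ (T 0)
  twist : ∀ (l ν : ℤ) (M : 𝒜), ∃ (a : (F ν).obj (M ⊗ T l) ≅ (F (ν + l)).obj M)
    (b : (G ν).obj (M ⊗ T l) ≅ (G (ν + l)).obj M), (ρ ν).app (M ⊗ T l) ≫ b.hom =
      a.hom ≫ (ρ (ν + l)).app M

end Pool.Agent.H91.QS
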