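import Pool.Agent.H91.QS.Main
import Pool.Agent.H91.QS.ConivDefs

/-!
# The two coniveau filtrations of the cohomology of motives
-/

set_option autoImplicit false

open CategoryTheory Limits MonoidalCategory Pool.Agent.W5h93.WC

universe v u v' u'

namespace Pool.Agent.H91.QS

variable {𝒜 : Type u} [Category.{v} 𝒜] [Preadditive 𝒜] {𝒢 : Type u'} [Category.{v'} 𝒢]
  [Preadditive 𝒢] {F G : ℤ → 𝒜 ⥤ 𝒢} {ρ : ∀ ν, F ν ⟶ G ν}

omit [Preadditive 𝒜] [Preadditive 𝒢] in
lemma LevelTate.retract {A B : 𝒜} (s : A ⟶ B) (t : B ⟶ A) (hs : s ≫ t = 𝟙 A)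
    (h : LevelTate ρ B) : LevelTate ρ A := by
  intro ν
  have := h ν
  refine ⟨(G ν).map s ≫ inv ((ρ ν).app B) ≫ (F ν).map t, ?_, ?_⟩
  · rw [← Category.assoc, ← (ρ ν).naturality, Category.assoc, IsIso.hom_inv_id_assoc,
      ← (F ν).map_comp, hs, (F ν).map_id]
  · rw [Category.assoc, Category.assoc, (ρ ν).naturality, IsIso.inv_hom_id_assoc,
      ← (G ν).map_comp, hs, (G ν).map_id]

lemma LevelTate.sum [HasBinaryBiproducts 𝒜] (hF : ∀ ν, (F ν).Additive)
    (hG : ∀ ν, (G ν).Additive) {A B : 𝒜} (hA : LevelTate ρ A) (hB : LevelTate ρ B) :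
    LevelTate ρ (A ⊞ B) := by
  intro ν
  have := hA ν
  have := hB ν
  have := hF ν
  have := hG ν
  have h1 : (F ν).map (biprod.fst : A ⊞ B ⟶ A) ≫ (F ν).map biprod.inl +
      (F ν).map (biprod.snd : A ⊞ B ⟶ B) ≫ (F ν).map biprod.inr = 𝟙 _ := by
    rw [← (F ν).map_comp, ← (F ν).map_comp, ← (F ν).map_add, biprod.total, (F ν).map_id]
  have h2 : (G ν).map (biprod.fst : A ⊞ B ⟶ A) ≫ (G ν).map biprod.inl +
      (G ν).map (biprod.snd : A ⊞ B ⟶ B) ≫ (G ν).map biprod.inr = 𝟙 _ := by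
    rw [← (G ν).map_comp, ← (G ν).map_comp, ← (G ν).map_add, biprod.total, (G ν).map_id]
  refine ⟨(G ν).map biprod.fst ≫ inv ((ρ ν).app A) ≫ (F ν).map biprod.inl +
    (G ν).map biprod.snd ≫ inv ((ρ ν).app B) ≫ (F ν).map biprod.inr, ?_, ?_⟩
  · rw [Preadditive.comp_add, ← Category.assoc, ← (ρ ν).naturality, Category.assoc,
      IsIso.hom_inv_id_assoc, ← Category.assoc ((ρ ν).app (A ⊞ B)), ← (ρ ν).naturality,
      Category.assoc, IsIso.hom_inv_id_assoc, h1]
  · rw [Preadditive.add_comp, Category.assoc, Category.assoc, (ρ ν).naturality,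
      IsIso.inv_hom_id_assoc, Category.assoc, Category.assoc, (ρ ν).naturality,
      IsIso.inv_hom_id_assoc, h2]

variable [MonoidalCategory 𝒜] {T : ℤ → 𝒜}

lemma LevelTate.twist (hH : IsConiveau T ρ) {A : 𝒜} (h : LevelTate ρ A) (l : ℤ) :
    LevelTate ρ (A ⊗ T l) := by
  intro ν
  obtain ⟨a, b, hab⟩ := hH.twist l ν A
  have := h (ν + l)
  have h1 : (ρ ν).app (A ⊗ T l) = a.hom ≫ (ρ (ν + l)).app A ≫ b.inv := by
    rw [← Category.assoc, ← hab, Category.assoc, b.hom_inv_id, Category.comp_id]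
  rw [h1]
  infer_instance

/-- the class of the motives which satisfy the generalized Tate conjecture in one level -/
def levelCls [HasBinaryBiproducts 𝒜] (hH : IsConiveau T ρ) : Cls 𝒜 where
  prop := LevelTate ρ
  nonempty := ⟨T 0, hH.unit⟩
  sum _ _ := LevelTate.sum (fun ν => (hH.additive ν).1) fun ν => (hH.additive ν).2
  retract _ _ s t hs h := LevelTate.retract s t hs h

end Pool.Agent.H91.QS
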