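import Pool.Agent.H91.L.W5h93_EX_Defs
import Pool.Agent.H79.L.W5h68_PJ_SysDefs
import Pool.Agent.H79.L.W5h68_SP_CycDefs

/-!
# Schemes built from schemes of small dimension, and systems of quadratic equations: definitions
-/

set_option autoImplicit false

open CategoryTheory AlgebraicGeometry MvPolynomial Pool.Agent.Y116.UV Pool.Agent.W5h93.EV
  Pool.Agent.W5h93.EX Pool.Agent.W5h68.PJ Pool.Agent.W5h68.SP

namespace Pool.Agent.H91.QS

/-- The ring `A[x_v : v ∈ V] / (G)` of functions on the subscheme `G = 0` of the affine space over
`Spec A` with the coordinates `x_v`, `v ∈ V`. -/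
abbrev Zeros (A : Type) [CommRing A] (V : Type) (G : Set (MvPolynomial V A)) : Type :=
  MvPolynomial V A ⧸ Ideal.span G

/-- The smallest class of separated schemes of finite type over `k` which contains the affine schemes of
dimension at most `n` and is closed under isomorphisms and under

* closed-open decompositions: with two of the schemes `Z`, `X`, `U = X - Z` also the third is in the
  class,
* affine bundles: the total space of the affine bundle `Spec A[w_1, …, w_m] / (∑ f_l w_l - 1) → U`, where
  `U` is the complement of `f = 0` in `Spec A`, is in the class if and only if `U` is,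
* division by `𝔾_m`: if `𝔾_m × Spec A` is in the class, so is `Spec A`,
* descent along cyclic coverings: if `Spec A[s] / (s ^ d - u)`, `u` a unit, is in the class, so is
  `Spec A`. -/
inductive Built (k : Type) [Field k] (n : ℕ) : Sch k → Prop
  | dim (A : Type) [CommRing A] [Algebra k A] [Algebra.FiniteType k A] (h : ringKrullDim A ≤ n) :
      Built k n (aff k A)
  | iso {X Y : Sch k} (hX : FT True X) (e : Nonempty (X ≅ Y)) (h : Built k n X) : Built k n Y
  | total {Z X U : Sch k} (i : Z ⟶ X) (j : U ⟶ X) (hX : FT True X) (ht : IsTriple i j)
      (hZ : Built k n Z) (hU : Built k n U) : Built k n X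
  | opened {Z X U : Sch k} (i : Z ⟶ X) (j : U ⟶ X) (hX : FT True X) (ht : IsTriple i j)
      (hZ : Built k n Z) (h : Built k n X) : Built k n U
  | closed {Z X U : Sch k} (i : Z ⟶ X) (j : U ⟶ X) (hX : FT True X) (ht : IsTriple i j)
      (h : Built k n X) (hU : Built k n U) : Built k n Z
  | bundle (A : Type) [CommRing A] [Algebra k A] [Algebra.FiniteType k A] (m : ℕ) (f : Fin m → A)
      (U : Sch k) (hU : Compl f U) (h : Built k n U) : Built k n (aff k (Jou f))
  | base (A : Type) [CommRing A] [Algebra k A] [Algebra.FiniteType k A] (m : ℕ) (f : Fin m → A)
      (U : Sch k) (hU : Compl f U) (h : Built k n (aff k (Jou f))) : Built k n U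
  | torus (A : Type) [CommRing A] [Algebra k A] [Algebra.FiniteType k A]
      (h : Built k n (aff k (LaurentPolynomial A))) : Built k n (aff k A)
  | cover (A : Type) [CommRing A] [Algebra k A] [Algebra.FiniteType k A] (d : ℕ) (u : A) (hd : 0 < d)
      (hu : IsUnit u) (h : Built k n (aff k (Cyc A d u))) : Built k n (aff k A)

/-- `P` is true for the subschemes of the affine spaces over `Spec A` given by `r + 1` equations of
degree at most two and any number of equations of degree at most one in the coordinates of the affine
space, for all algebras `A` of finite type over `k` of dimension at most `s`, where `s + r ≤ n`. -/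
def AffineQuadrics (k : Type) [Field k] (n : ℕ) (P : Sch k → Prop) : Prop :=
  ∀ (A : Type) [CommRing A] [Algebra k A] [Algebra.FiniteType k A] (s r : ℕ),
    ringKrullDim A ≤ s → s + r ≤ n → ∀ (N m : ℕ) (b : Fin m → MvPolynomial (Fin N) A)
    (q : Fin (r + 1) → MvPolynomial (Fin N) A), (∀ j, (b j).totalDegree ≤ 1) →
    (∀ l, (q l).totalDegree ≤ 2) → P (aff k (Zeros A (Fin N) (Set.range b ∪ Set.range q)))

/-- `P` is true for the closed subschemes of the projective spaces over `k` which are the intersection of
`n + 1` quadrics and any number of hyperplanes (with any scheme structure on this closed subset). -/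
def ProjectiveQuadrics (k : Type) [Field k] (n : ℕ) (P : Sch k → Prop) : Prop :=
  ∀ (N m : ℕ) (b : Fin m → MvPolynomial (Fin N) k) (q : Fin (n + 1) → MvPolynomial (Fin N) k),
    (∀ j, (b j).IsHomogeneous 1) → (∀ l, (q l).IsHomogeneous 2) →
    ∀ (X : Sch k) (i : X ⟶ space k (Fin N)), FT True X → Supp (Set.range b ∪ Set.range q) i → P X

/-- `P` is true for the closed subschemes of affine spaces over `k` given by `m` equations of degree at
most two. -/
def QuadraticSystems (k : Type) [Field k] (m : ℕ) (P : Sch k → Prop) : Prop :=
  ∀ (N : ℕ) (q : Fin m → MvPolynomial (Fin N) k), (∀ l, (q l).totalDegree ≤ 2) →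
    P (aff k (Zeros k (Fin N) (Set.range q)))

/-- **The reduction to quadratic equations** of the property `C` of the schemes of the class `Q`. The
property `P` extends `C` to all separated schemes of finite type.

* If all integral schemes of dimension at most `n` have birational models in the class, then `C` for the
  schemes of the class of dimension at most `n` is equivalent to `P` for all schemes in `Built k n`, and it
  implies `C` for all schemes of the class in `Built k n`, of any dimension.
* `P` for the affine schemes given by `n + 2` quadratic equations implies `C` for the schemes of the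
  class of dimension at most `n`. -/
structure QuadReduces {k : Type} [Field k] (Q C P : Sch k → Prop) : Prop where
  dim_iff : ∀ n, ModelsIn Q n → (ForClass Q C n ↔ ∀ X : Sch k, Built k n X → P X)
  of_dim : ∀ n, ModelsIn Q n → ForClass Q C n → ∀ X : Sch k, Q X → Built k n X → C X
  of_systems : ∀ n, QuadraticSystems k (n + 2) P → ForClass Q C n

end Pool.Agent.H91.QS
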