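import Pool.Agent.H91.L.W5h93_EX_OrdDefs
import Pool.Agent.H91.L.W5h93_WC_MurreDefs

/-!
# Ordinary places for motives: definitions
-/

set_option autoImplicit false

open CategoryTheory Limits MonoidalCategory Filter Pool.Agent.W5h93.EX

universe v u

namespace Pool.Agent.H91.QS

/-- For the motives `M` over a number field, the degrees `j` and the places `v` (the elements of `ι`): the
slopes of the Newton polygon of `H^j(M)` at `v`, with their multiplicities, and the Hodge-Tate weights of
`H^j(M)`, with their multiplicities. -/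
structure MotSlopes (𝒜 : Type u) (ι : Type) where
  /-- the slopes of the Newton polygon of the Frobenius element at `v` on `H^j(M)` -/
  slopes : 𝒜 → ℤ → ι → Multiset ℚ
  /-- the Hodge-Tate weights of `H^j(M)` -/
  weights : 𝒜 → ℤ → Multiset ℚ

variable {𝒜 : Type u} {ι : Type}

/-- The place `v` is ordinary for `H^j(M)`: the Newton polygon is equal to the Hodge-Tate polygon. -/
def MotSlopes.Ord (D : MotSlopes 𝒜 ι) (M : 𝒜) (j : ℤ) (v : ι) : Prop :=
  D.slopes M j v = D.weights M j

/-- The motive `M` is ordinary along the filter `𝓕`: for all `j` the set of the places which are ordinary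
for `H^j(M)` is in `𝓕`. -/
def MotSlopes.OrdAlong (D : MotSlopes 𝒜 ι) (𝓕 : Filter ι) (M : 𝒜) : Prop :=
  ∀ j, ∀ᶠ v in 𝓕, D.Ord M j v

/-- The class `S` of motives has common ordinary places: for every finite family of motives `M` of the
class and degrees `j` there are infinitely many places which are ordinary for all the `H^j(M)`. -/
def MotSlopes.HasCommon (D : MotSlopes 𝒜 ι) (S : 𝒜 → Prop) : Prop :=
  ∀ L : List (𝒜 × ℤ), (∀ x ∈ L, S x.1) → {v | ∀ x ∈ L, D.Ord x.1 x.2 v}.Infinite

/-- A family of Galois representations with the slopes `s v` and the Hodge-Tate weights `w` is a direct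
summand of `H^j(M)`, and the Newton polygons of the summand and of its complement are above the Hodge-Tate
polygons, at almost all places. (For example the intersection cohomology of the images of a smooth
projective variety `X` for `M = h(X)`.) -/
def MotSlopes.IsSummand (D : MotSlopes 𝒜 ι) (M : 𝒜) (j : ℤ) (s : ι → Multiset ℚ)
    (w : Multiset ℚ) : Prop :=
  ∃ (s' : ι → Multiset ℚ) (w' : Multiset ℚ), w + w' = D.weights M j ∧
    ∀ᶠ v in cofinite, s v + s' v = D.slopes M j v ∧ IsAbove (s v) w ∧ IsAbove (s' v) w'

/-- The standard properties of the slopes and weights: invariance under isomorphisms and additivity;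
the Newton polygon is above the Hodge-Tate polygon at almost all places (Katz-Messing, Mazur, Faltings);
`H^j(M ⊗ T l)` is the Tate twist of `H^(j - 2 l)(M)`, with the slopes and the weights increased by `l`; and
almost all places are ordinary for the unit object. -/
structure MotSlopes.IsRealization [Category.{v} 𝒜] [Preadditive 𝒜] [HasBinaryBiproducts 𝒜]
    [MonoidalCategory 𝒜] (D : MotSlopes 𝒜 ι) (T : ℤ → 𝒜) : Prop where
  iso : ∀ A B : 𝒜, Nonempty (A ≅ B) → ∀ j, D.weights A j = D.weights B j ∧
    ∀ᶠ v in cofinite, D.slopes A j v = D.slopes B j v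
  sum : ∀ (A B : 𝒜) (j : ℤ), D.weights (A ⊞ B) j = D.weights A j + D.weights B j ∧
    ∀ᶠ v in cofinite, D.slopes (A ⊞ B) j v = D.slopes A j v + D.slopes B j v
  above : ∀ (A : 𝒜) (j : ℤ), ∀ᶠ v in cofinite, IsAbove (D.slopes A j v) (D.weights A j)
  twist : ∀ (A : 𝒜) (l j : ℤ),
    D.weights (A ⊗ T l) j = (D.weights A (j - 2 * l)).map (fun x => x + (l : ℚ)) ∧
    ∀ᶠ v in cofinite, D.slopes (A ⊗ T l) j v =
      (D.slopes A (j - 2 * l) v).map (fun x => x + (l : ℚ))
  unit : ∀ j, ∀ᶠ v in cofinite, D.Ord (T 0) j v

end Pool.Agent.H91.QS
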