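import Pool.Agent.H91.L.W5h93_WC_Defs

/-!
# Semisimplicity of Galois modules attached to motives: definitions
-/

set_option autoImplicit false

open CategoryTheory Limits MonoidalCategory

universe v u w r

namespace Pool.Agent.H91.QS

variable {𝒜 : Type u} [Category.{v} 𝒜] [Preadditive 𝒜] {R : Type r} [Ring R]

/-- The Galois modules `H_j(M)`, `j ≡ ε` modulo `2`, are semisimple. -/
def Semi (H : ℤ → 𝒜 ⥤ ModuleCat.{w} R) (ε : ℤ) (M : 𝒜) : Prop :=
  ∀ j, Even (j - ε) → IsSemisimpleModule R ((H j).obj M)

/-- The functors `H j` are a homology theory on the tensor category `𝒜` with the Tate objects `T l` and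
with values in the modules over `R` (the group algebra `ℚ_ℓ[G_k]` of the absolute Galois group): they are
additive, the homology of the unit object is semisimple, and the `R`-submodules (Galois stable subspaces)
of `H_j(M ⊗ T l) = H_{j - 2 l}(M)(l)` and `H_{j - 2 l}(M)` are the same. -/
structure IsGaloisHomology [MonoidalCategory 𝒜] (T : ℤ → 𝒜) (H : ℤ → 𝒜 ⥤ ModuleCat.{w} R) :
    Prop where
  additive : ∀ j, (H j).Additive
  unit : ∀ j, IsSemisimpleModule R ((H j).obj (T 0))
  twist : ∀ (l j : ℤ) (M : 𝒜),
    Nonempty (Submodule R ((H j).obj (M ⊗ T l)) ≃o Submodule R ((H (j - 2 * l)).obj M))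

end Pool.Agent.H91.QS
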