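import Pool.Agent.H91.QS.Main
import Pool.Agent.H91.QS.SemiDefs

/-!
# Semisimplicity of Galois modules attached to motives
-/

set_option autoImplicit false

open CategoryTheory Limits MonoidalCategory Pool.Agent.W5h93.WC

universe v u w r

namespace Pool.Agent.H91.QS

variable {𝒜 : Type u} [Category.{v} 𝒜] [Preadditive 𝒜] {R : Type r} [Ring R]
  {H : ℤ → 𝒜 ⥤ ModuleCat.{w} R} {ε : ℤ}

omit [Preadditive 𝒜] in
lemma Semi.retract {A B : 𝒜} (s : A ⟶ B) (t : B ⟶ A) (hs : s ≫ t = 𝟙 A) (h : Semi H ε B) :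
    Semi H ε A := by
  intro j hj
  have := h j hj
  refine IsSemisimpleModule.of_injective ((H j).map s).hom ?_
  refine Function.LeftInverse.injective (g := ((H j).map t).hom) fun x => ?_
  have h1 : (H j).map s ≫ (H j).map t = 𝟙 _ := by rw [← (H j).map_comp, hs, (H j).map_id]
  exact congrArg (fun f => f.hom x) h1

variable [HasBinaryBiproducts 𝒜]

lemma Semi.sum (hadd : ∀ j, (H j).Additive) {A B : 𝒜} (hA : Semi H ε A) (hB : Semi H ε B) :
    Semi H ε (A ⊞ B) := by
  intro j hj
  have := hA j hj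
  have := hB j hj
  have := hadd j
  have h4 : 𝟙 ((H j).obj (A ⊞ B)) = (H j).map biprod.fst ≫ (H j).map biprod.inl +
      (H j).map biprod.snd ≫ (H j).map biprod.inr := by
    rw [← (H j).map_comp, ← (H j).map_comp, ← (H j).map_add, biprod.total, (H j).map_id]
  let p := LinearMap.range ((H j).map (biprod.inl : A ⟶ A ⊞ B)).hom
  let q := LinearMap.range ((H j).map (biprod.inr : B ⟶ A ⊞ B)).hom
  have h5 : p ⊔ q = ⊤ := by
    rw [eq_top_iff]
    intro x _
    have h6 : x = ((H j).map biprod.inl).hom (((H j).map (biprod.fst : A ⊞ B ⟶ A)).hom x) +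
        ((H j).map biprod.inr).hom (((H j).map (biprod.snd : A ⊞ B ⟶ B)).hom x) :=
      congrArg (fun f => f.hom x) h4
    rw [h6]
    exact Submodule.add_mem_sup ⟨_, rfl⟩ ⟨_, rfl⟩
  have h7 : IsSemisimpleModule R ↥(p ⊔ q) :=
    IsSemisimpleModule.sup (IsSemisimpleModule.range _) (IsSemisimpleModule.range _)
  rw [h5] at h7
  exact IsSemisimpleModule.congr Submodule.topEquiv.symm

variable [MonoidalCategory 𝒜] {T : ℤ → 𝒜}

omit [HasBinaryBiproducts 𝒜] in
lemma Semi.twist (hH : IsGaloisHomology T H) {A : 𝒜} (h : Semi H ε A) (l : ℤ) :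
    Semi H ε (A ⊗ T l) := by
  intro j hj
  obtain ⟨e⟩ := hH.twist l j A
  have h1 : Even (j - 2 * l - ε) := by
    have h2 : j - 2 * l - ε = (j - ε) - 2 * l := by ring
    rw [h2]
    exact hj.sub (even_two_mul l)
  have h2 := h (j - 2 * l) h1
  rw [isSemisimpleModule_iff] at h2 ⊢
  exact e.complementedLattice_iff.mpr h2

/-- the class of the motives with semisimple homology in the degrees of parity `ε` -/
def semiCls (hH : IsGaloisHomology T H) (ε : ℤ) : Cls 𝒜 where
  prop := Semi H ε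
  nonempty := ⟨T 0, fun j _ => hH.unit j⟩
  sum _ _ := Semi.sum hH.additive
  retract _ _ s t hs h := Semi.retract s t hs h

end Pool.Agent.H91.QS
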