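import Pool.Agent.H91.L.W5h93_WC_MurreDefs

/-!
# Tate classes of motives: definitions
-/

set_option autoImplicit false

open CategoryTheory Limits MonoidalCategory

universe v u w r

namespace Pool.Agent.H91.QS

variable {𝒜 : Type u} [Category.{v} 𝒜] [Preadditive 𝒜] [MonoidalCategory 𝒜] {Ω : Type r} [Ring Ω]
  {T : ℤ → 𝒜}

/-- Every Tate class is a combination of motivic classes, for the motive `M`: for all `l` the elements of
`Inv (M ⊗ T l)`, the Galois invariants of the `ℓ`-adic realization of `M ⊗ T l`, are combinations with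
coefficients in `Ω = ℚ_ℓ` of the images of the canonical element `e` of `Inv (T 0)` under the morphisms
`T 0 → M ⊗ T l`. -/
def TateIn (Inv : 𝒜 ⥤ ModuleCat.{w} Ω) (e : Inv.obj (T 0)) (M : 𝒜) : Prop :=
  ∀ (l : ℤ) (v : Inv.obj (M ⊗ T l)),
    v ∈ Submodule.span Ω {x | ∃ f : T 0 ⟶ M ⊗ T l, (Inv.map f).hom e = x}

/-- The standard properties of the functor `Inv M = (M_ℓ)^Γ` of the Galois invariants of the `ℓ`-adic
realizations: it is additive, the invariants of the unit object `T 0` are generated by the canonical
element, and there are no nonzero invariants in the Tate objects `T l`, `l ≠ 0`. -/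
structure IsInvariants (Inv : 𝒜 ⥤ ModuleCat.{w} Ω) (e : Inv.obj (T 0)) : Prop where
  additive : Inv.Additive
  unit : ∀ v : Inv.obj (T 0), v ∈ Submodule.span Ω {e}
  weights : ∀ l, l ≠ 0 → ∀ v : Inv.obj (T l), v = 0

end Pool.Agent.H91.QS
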