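import Pool.Agent.H91.QS.Murre
import Pool.Agent.H91.QS.TateDefs

/-!
# Tate classes of motives
-/

set_option autoImplicit false

open CategoryTheory Limits MonoidalCategory Pool.Agent.W5h93.WC

universe v u w r

namespace Pool.Agent.H91.QS

variable {𝒜 : Type u} [Category.{v} 𝒜] [Preadditive 𝒜] [MonoidalCategory 𝒜] {Ω : Type r} [Ring Ω]
  {T : ℤ → 𝒜} {Inv : 𝒜 ⥤ ModuleCat.{w} Ω} {e : Inv.obj (T 0)}

/-- the combinations of motivic classes -/
abbrev motSpan (e : Inv.obj (T 0)) (M : 𝒜) : Submodule Ω (Inv.obj M) :=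
  Submodule.span Ω {x | ∃ f : T 0 ⟶ M, (Inv.map f).hom e = x}

omit [Preadditive 𝒜] [MonoidalCategory 𝒜] in
lemma mot_map {M N : 𝒜} (g : M ⟶ N) {v : Inv.obj M} (hv : v ∈ motSpan e M) :
    (Inv.map g).hom v ∈ motSpan e N := by
  have h1 : (motSpan e M).map (Inv.map g).hom ≤ motSpan e N := by
    rw [Submodule.map_span, Submodule.span_le]
    rintro _ ⟨_, ⟨f, rfl⟩, rfl⟩
    refine Submodule.subset_span ⟨f ≫ g, ?_⟩
    rw [Inv.map_comp]
    rfl
  exact h1 ⟨v, hv, rfl⟩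

omit [Preadditive 𝒜] [MonoidalCategory 𝒜] in
lemma mot_retract {M N : 𝒜} (s : M ⟶ N) (t : N ⟶ M) (hs : s ≫ t = 𝟙 M)
    (h : ∀ v : Inv.obj N, v ∈ motSpan e N) (v : Inv.obj M) : v ∈ motSpan e M := by
  have h1 := mot_map t (h ((Inv.map s).hom v))
  have h2 : (Inv.map t).hom ((Inv.map s).hom v) = v := by
    have h3 : Inv.map s ≫ Inv.map t = 𝟙 _ := by rw [← Inv.map_comp, hs, Inv.map_id]
    exact congrArg (fun f => f.hom v) h3
  rwa [h2] at h1

omit [Preadditive 𝒜] in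
lemma TateIn.retract {A B : 𝒜} (s : A ⟶ B) (t : B ⟶ A) (hs : s ≫ t = 𝟙 A)
    (h : TateIn Inv e B) : TateIn Inv e A := fun l v =>
  mot_retract (s ▷ T l) (t ▷ T l) (by rw [← comp_whiskerRight, hs, id_whiskerRight]) (h l) v

omit [Preadditive 𝒜] in
lemma TateIn.twist (hT : ∀ i j, Nonempty (T i ⊗ T j ≅ T (i + j))) {A : 𝒜} (h : TateIn Inv e A)
    (l : ℤ) : TateIn Inv e (A ⊗ T l) := by
  intro j v
  obtain ⟨a⟩ := hT l j
  let a' : (A ⊗ T l) ⊗ T j ≅ A ⊗ T (l + j) := (α_ A (T l) (T j)) ≪≫ whiskerLeftIso A a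
  exact mot_retract a'.hom a'.inv a'.hom_inv_id (h (l + j)) v

lemma TateIn.unit (hT : IsTate T) (hI : IsInvariants Inv e) : TateIn Inv e (T 0) := by
  intro l v
  obtain ⟨a⟩ := hT.mul 0 l
  have a' : T 0 ⊗ T l ≅ T l := a ≪≫ eqToIso (by rw [zero_add])
  refine mot_retract a'.hom a'.inv a'.hom_inv_id (fun w => ?_) v
  by_cases hl : l = 0
  · subst hl
    refine (Submodule.span_mono ?_ : Submodule.span Ω {e} ≤ _) (hI.unit w)
    rintro _ rfl
    exact ⟨𝟙 _, by rw [Inv.map_id]; rfl⟩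
  · rw [hI.weights l hl w]
    exact Submodule.zero_mem _

variable [HasBinaryBiproducts 𝒜]

lemma TateIn.sum [MonoidalPreadditive 𝒜] (hI : IsInvariants Inv e) {A B : 𝒜}
    (hA : TateIn Inv e A) (hB : TateIn Inv e B) : TateIn Inv e (A ⊞ B) := by
  intro l v
  have := hI.additive
  have h1 : (𝟙 ((A ⊞ B) ⊗ T l)) = ((biprod.fst : A ⊞ B ⟶ A) ▷ T l) ≫ (biprod.inl ▷ T l) +
      ((biprod.snd : A ⊞ B ⟶ B) ▷ T l) ≫ (biprod.inr ▷ T l) := by
    rw [← comp_whiskerRight, ← comp_whiskerRight, ← MonoidalPreadditive.add_whiskerRight,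
      biprod.total, id_whiskerRight]
  have h2 := congrArg (fun f => (Inv.map f).hom v) h1
  have h3 : (Inv.map (𝟙 ((A ⊞ B) ⊗ T l))).hom v = v := by
    rw [Inv.map_id]
    rfl
  have h4 : v = (Inv.map (biprod.inl ▷ T l)).hom
        ((Inv.map ((biprod.fst : A ⊞ B ⟶ A) ▷ T l)).hom v) +
      (Inv.map (biprod.inr ▷ T l)).hom
        ((Inv.map ((biprod.snd : A ⊞ B ⟶ B) ▷ T l)).hom v) := by
    refine h3.symm.trans (h2.trans ?_)
    rw [Inv.map_add, Inv.map_comp, Inv.map_comp]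
    rfl
  rw [h4]
  exact Submodule.add_mem _ (mot_map _ (hA l _)) (mot_map _ (hB l _))

/-- the class of the motives all of whose Tate classes are combinations of motivic classes -/
def tateCls [MonoidalPreadditive 𝒜] (hT : IsTate T) (hI : IsInvariants Inv e) : Cls 𝒜 where
  prop := TateIn Inv e
  nonempty := ⟨T 0, TateIn.unit hT hI⟩
  sum _ _ := TateIn.sum hI
  retract _ _ s t hs h := TateIn.retract s t hs h

end Pool.Agent.H91.QS
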